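import Pool.Agent.H76.BanFin

/-! Surjective maps between algebras of bounded operators preserving the spectrum of
commutators. -/

namespace Pool.Agent.Results.MP_0bd5b4_an.Classification

open Pool.Agent.H76.BanBasic Pool.Agent.H76.BanMain Pool.Agent.H76.BanSign Pool.Agent.H76.BanFin

/-- The Banach space adjoint `T* f = f ∘ T`. -/
noncomputable def adjoint {X : Type*} [NormedAddCommGroup X] [NormedSpace ℂ X] (T : X →L[ℂ] X) :
    StrongDual ℂ X →L[ℂ] StrongDual ℂ X :=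
  (ContinuousLinearMap.compL ℂ X X ℂ).flip T

/-- The operators whose sign is free: `(T - r)^2 = s` with either `s ≠ 0`, or invertibility of
`1 - [T,S]` always implying invertibility of `1 + [T,S]`. -/
def Free {X : Type*} [NormedAddCommGroup X] [NormedSpace ℂ X] (T : X →L[ℂ] X) : Prop :=
  ∃ r s : ℂ, (T - r • (1 : X →L[ℂ] X)) ^ 2 = s • (1 : X →L[ℂ] X) ∧
    (s ≠ 0 ∨ ∀ S : X →L[ℂ] X, IsUnit (1 - (T * S - S * T)) → IsUnit (1 + (T * S - S * T)))

variable {X Y : Type*} [NormedAddCommGroup X] [NormedSpace ℂ X]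
  [NormedAddCommGroup Y] [NormedSpace ℂ Y]

lemma free_iff (T : X →L[ℂ] X) : Free T ↔ ∀ S, SymP T S := by
  constructor
  · rintro ⟨r, s, h, hs | hs⟩ S
    · exact (sym_shift r).2 (sym_of_inv hs (by rwa [← pow_two]) S)
    · intro c hc
      by_cases hc0 : c = 0
      · simpa [hc0] using hc
      rw [spectrum.mem_iff, Algebra.algebraMap_eq_smul_one] at hc ⊢
      intro h1
      apply hc
      have e : br T ((-c⁻¹) • S) = (-c⁻¹) • br T S := by
        rw [← one_smul ℂ T, br_smul_smul, one_mul, one_smul]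
      have h2 := hs ((-c⁻¹) • S) (by
        change IsUnit (1 - br T ((-c⁻¹) • S))
        have := h1.smul (Units.mk0 (-c⁻¹) (by simpa using hc0))
        rwa [Units.smul_def, Units.val_mk0, smul_sub, smul_smul, neg_mul_neg,
          inv_mul_cancel₀ hc0, one_smul, ← e] at this)
      change IsUnit (1 + br T ((-c⁻¹) • S)) at h2
      have := h2.smul (Units.mk0 c hc0)
      rwa [Units.smul_def, Units.val_mk0, e, smul_add, smul_smul, mul_neg, mul_inv_cancel₀ hc0,
        neg_smul, one_smul, ← sub_eq_add_neg] at this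
  · intro h
    have hq : Quad T := by
      by_contra hq
      obtain ⟨p, hp⟩ := (gen_asym hq).exists
      exact hp (h _)
    obtain ⟨r, s, h1⟩ := hq
    refine ⟨r, s, h1, Or.inr fun S h2 => ?_⟩
    by_contra h3
    have h4 := h S (-1) (by
      rw [spectrum.mem_iff]
      intro h5
      apply h3
      have := h5.neg
      rwa [map_neg, map_one, neg_sub, sub_neg_eq_add, add_comm] at this)
    rw [neg_neg, spectrum.mem_iff, map_one] at h4
    exact h4 h2

lemma unit_comm {A : Type*} [Ring A] [Algebra ℂ A] {a b : A} (h : IsUnit (1 - a * b)) :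
    IsUnit (1 - b * a) := by
  by_contra h1
  have h2 : (1 : ℂ) ∈ spectrum ℂ (b * a) \ {0} := ⟨by rwa [spectrum.mem_iff, map_one], by simp⟩
  rw [spectrum.nonzero_mul_comm] at h2
  exact (spectrum.mem_iff.1 h2.1) (by rwa [map_one])

lemma free_of_compact [CompleteSpace X] (T : X →L[ℂ] X) (r : ℂ)
    (h : (T - r • (1 : X →L[ℂ] X)) ^ 2 = 0) (hc : IsCompactOperator ⇑(T - r • (1 : X →L[ℂ] X))) :
    Free T := by
  refine ⟨r, 0, by simpa using h, Or.inr fun S hS => ?_⟩
  change IsUnit (1 - br T S) at hS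
  change IsUnit (1 + br T S)
  rw [br_shift T S r] at hS ⊢
  generalize T - r • (1 : X →L[ℂ] X) = N at h hc hS
  rw [pow_two] at h
  have e0 : S * N * (N * S) = 0 := by rw [mul_assoc, ← mul_assoc N, h]; simp
  have e1 : 1 - br N S = (1 - (-S) * N) * (1 - N * S) := by
    simp only [br, sub_mul, mul_sub, neg_mul, one_mul, mul_one, e0]; abel
  have e2 : 1 + br N S = (1 - S * N) * (1 - N * (-S)) := by
    simp only [br, sub_mul, mul_sub, mul_neg, one_mul, mul_one, e0]; abel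
  have h1 : IsUnit (1 - N * S) := by
    rcases IsCompactOperator.hasEigenvalue_or_mem_resolventSet (T := N * S) (μ := (1 : ℂ))
      (hc.comp_clm S) one_ne_zero with h2 | h2
    · obtain ⟨v, hv⟩ := h2.exists_hasEigenvector
      have h3 : (N * S) v = v := by simpa using hv.apply_eq_smul
      exfalso
      refine (spectrum.mem_iff (R := ℂ)).1 (mem_spec_of_eig (Z := -(1 - br N S)) (c := 0) hv.2 ?_)
        (by simpa using hS)
      rw [e1, neg_apply, mul_apply_eq_comp, sub_apply _ (N * S), h3]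
      simp
    · simpa [spectrum.mem_resolventSet_iff] using h2
  have h2 : IsUnit (1 - (-S) * N) := by
    rw [e1] at hS
    exact (h1.mul_right_iff).1 hS
  rw [e2]
  exact (unit_comm h1).mul (unit_comm h2)

lemma br_map {X Y : Type*} [NormedAddCommGroup X] [NormedSpace ℂ X] [NormedAddCommGroup Y]
    [NormedSpace ℂ Y] (A : X ≃L[ℂ] Y) (T S : X →L[ℂ] X) :
    br (A.conjContinuousAlgEquiv T) (A.conjContinuousAlgEquiv S)
      = A.conjContinuousAlgEquiv (br T S) := by
  simp only [br, map_sub, map_mul]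

lemma spec_map (A : X ≃L[ℂ] Y) (Z : X →L[ℂ] X) :
    spectrum ℂ (A.conjContinuousAlgEquiv Z) = spectrum ℂ Z :=
  AlgEquiv.spectrum_eq A.conjContinuousAlgEquiv Z

lemma spec1 (A : X ≃L[ℂ] Y) (k : ℂ) (T S : X →L[ℂ] X) :
    spectrum ℂ (k • br (A.conjContinuousAlgEquiv T) (A.conjContinuousAlgEquiv S))
      = spectrum ℂ (k • br T S) := by
  rw [br_map, ← map_smul, spec_map]

lemma spec2 [CompleteSpace X] (C : StrongDual ℂ X ≃L[ℂ] Y) (k : ℂ) (T S : X →L[ℂ] X) :
    spectrum ℂ (k • br (C.conjContinuousAlgEquiv (adj T)) (C.conjContinuousAlgEquiv (adj S)))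
      = spectrum ℂ ((-k) • br T S) := by
  rw [spec1, br_adj, ← spec_adj ((-k) • br T S)]
  congr 1
  ext f x
  simp

lemma converse (ξ : (X →L[ℂ] X) → ℂ) (h1 : ∀ T, ξ T = 1 ∨ ξ T = -1)
    (h2 : ∀ T T', ¬ Free T → ¬ Free T' → ξ T = ξ T') (T S : X →L[ℂ] X) :
    spectrum ℂ ((ξ T * ξ S) • br T S) = spectrum ℂ (br T S) := by
  by_cases h : ξ T = ξ S
  · rw [← h, mul_self_eq_one_iff.2 (h1 T), one_smul]
  · have h3 : ξ T * ξ S = -1 := by
      rcases h1 T with b1 | b1 <;> rcases h1 S with b2 | b2 <;> simp_all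
    have h4 : SymP T S := by
      by_cases hT : Free T
      · exact (free_iff T).1 hT S
      · have hS : Free S := by
          by_contra hS
          exact h (h2 T S hT hS)
        exact ((free_iff S).1 hS T).swap
    ext c
    rw [h3, neg_smul, one_smul, mem_spec_neg]
    exact ⟨fun hc => by simpa using h4 _ hc, h4 c⟩

lemma forms [CompleteSpace X] [CompleteSpace Y] {φ : (X →L[ℂ] X) → (Y →L[ℂ] Y)}
    (hs : Function.Surjective φ)
    (h : ∀ T S, spectrum ℂ (br (φ T) (φ S)) = spectrum ℂ (br T S)) :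
    (∃ A : X ≃L[ℂ] Y, ∀ T, ∃ e d : ℂ, e * e = 1 ∧
      φ T = e • A.conjContinuousAlgEquiv T + d • 1) ∨
    (∃ C : StrongDual ℂ X ≃L[ℂ] Y, ∀ T, ∃ e d : ℂ, e * e = 1 ∧
      φ T = e • (Complex.I • C.conjContinuousAlgEquiv (adj T)) + d • 1) := by
  have s1 : ∀ T S : X →L[ℂ] X, ∃ Z : Y →L[ℂ] Y, spectrum ℂ Z = spectrum ℂ (br T S) :=
    fun T S => ⟨_, h T S⟩
  have s2 : ∀ T S : Y →L[ℂ] Y, ∃ Z : X →L[ℂ] X, spectrum ℂ Z = spectrum ℂ (br T S) := by
    intro T S
    obtain ⟨T, rfl⟩ := hs T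
    obtain ⟨S, rfl⟩ := hs S
    exact ⟨_, (h T S).symm⟩
  by_cases hX : FiniteDimensional ℂ X
  · obtain ⟨hY, h1⟩ := le_of_sub s2
    exact spatial_fin (le_antisymm (le_of_sub s1).2 h1) h
  have hY : ¬ FiniteDimensional ℂ Y := fun hY => hX (le_of_sub s1).1
  have hI : Complex.I * Complex.I = -1 := Complex.I_mul_I
  obtain ⟨c, hc, ⟨A, hA⟩ | ⟨C, hC⟩⟩ := spatial hX hY hs h
  · choose ξ η hξ hφ using hA
    have h1 : c * c = 1 := kappa_one hX ξ hξ hc fun T S => by
      rw [← h T S, hφ T, hφ S, br_form, br_smul_smul, smul_smul, spec1, mul_comm]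
    refine Or.inl ⟨A, fun T => ⟨ξ T * c, η T, ?_, by rw [hφ T, smul_smul]⟩⟩
    linear_combination (c * c) * hξ T + h1
  · choose ξ η hξ hφ using hC
    have h1 : -(c * c) = 1 := kappa_one hX ξ hξ (by linear_combination hc) fun T S => by
      rw [← h T S, hφ T, hφ S, br_form, br_smul_smul, smul_smul, spec2, mul_comm (ξ T * ξ S),
        neg_mul]
    refine Or.inr ⟨C, fun T => ⟨-(ξ T * c * Complex.I), η T, ?_, ?_⟩⟩
    · linear_combination (c * c * (Complex.I * Complex.I)) * hξ T + (c * c) * hI + h1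
    · rw [hφ T, smul_smul, smul_smul,
        show -(ξ T * c * Complex.I) * Complex.I = ξ T * c by linear_combination -(ξ T * c) * hI]

theorem result (X Y : Type*) [NormedAddCommGroup X] [NormedSpace ℂ X] [CompleteSpace X]
    [NormedAddCommGroup Y] [NormedSpace ℂ Y] [CompleteSpace Y] :
    (∀ φ : (X →L[ℂ] X) → (Y →L[ℂ] Y), Function.Surjective φ →
      ((∀ T S, spectrum ℂ (φ T * φ S - φ S * φ T) = spectrum ℂ (T * S - S * T)) ↔
      ∃ η ξ : (X →L[ℂ] X) → ℂ, (∀ T, ξ T = 1 ∨ ξ T = -1) ∧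
        (∀ T T', ¬ Free T → ¬ Free T' → ξ T = ξ T') ∧
        ((∃ A : X ≃L[ℂ] Y, ∀ T, φ T = ξ T • ((A : X →L[ℂ] Y) ∘L T ∘L (A.symm : Y →L[ℂ] X))
            + η T • (1 : Y →L[ℂ] Y)) ∨
         (∃ C : StrongDual ℂ X ≃L[ℂ] Y, ∀ T, φ T = (ξ T * Complex.I) •
            ((C : StrongDual ℂ X →L[ℂ] Y) ∘L adjoint T ∘L (C.symm : Y →L[ℂ] StrongDual ℂ X))
            + η T • (1 : Y →L[ℂ] Y))))) ∧
    (∀ (T : X →L[ℂ] X) (r : ℂ), (T - r • (1 : X →L[ℂ] X)) ^ 2 = 0 →
      IsCompactOperator ⇑(T - r • (1 : X →L[ℂ] X)) → Free T) := by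
  refine ⟨fun φ hs => ?_, free_of_compact⟩
  have hI : Complex.I * Complex.I = -1 := Complex.I_mul_I
  change (∀ T S, spectrum ℂ (br (φ T) (φ S)) = spectrum ℂ (br T S)) ↔ _
  constructor
  · intro h
    rcases forms hs h with ⟨A, hA⟩ | ⟨C, hC⟩
    · choose ξ η hξ hφ using hA
      refine ⟨η, ξ, fun T => mul_self_eq_one_iff.1 (hξ T), fun T T' hT hT' => ?_,
        Or.inl ⟨A, hφ⟩⟩
      rw [free_iff] at hT hT'
      exact const_off ξ hξ (fun T S => by rw [← h T S, hφ T, hφ S, br_form, spec1]) hT hT'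
    · choose ξ η hξ hφ using hC
      refine ⟨η, ξ, fun T => mul_self_eq_one_iff.1 (hξ T), fun T T' hT hT' => ?_,
        Or.inr ⟨C, fun T => by rw [hφ T, smul_smul]; rfl⟩⟩
      rw [free_iff] at hT hT'
      refine const_off ξ hξ (fun T S => ?_) hT hT'
      rw [← h T S, hφ T, hφ S, br_form, br_smul_smul, smul_smul, spec2, hI]
      simp
  · rintro ⟨η, ξ, h1, h2, ⟨A, hA⟩ | ⟨C, hC⟩⟩ T S
    · rw [hA, hA, br_form]
      exact (spec1 A _ T S).trans (converse ξ h1 h2 T S)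
    · rw [hC, hC, br_form]
      refine (spec2 C _ T S).trans ?_
      rw [show -(ξ T * Complex.I * (ξ S * Complex.I)) = ξ T * ξ S by
        linear_combination -(ξ T * ξ S) * hI]
      exact converse ξ h1 h2 T S

end Pool.Agent.Results.MP_0bd5b4_an.Classification
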